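import Pool.Agent.Lib.MP_e6fef2_lc.Chain
import Pool.Agent.Lib.MP_c5d73d_lc.F.H62.Roapi

/-!
# FAC: properness of `Q` over `C` gives properness over the proper subalgebra `A`
-/

universe u

open Cardinal Filter

namespace Pool.Agent.Lib.MP_e6fef2_lc.H46

open Pool.Agent.Lib.MP_100a6c_lc
open Pool.Agent.Lib.MP_c5d73d_lc.F (pr)
open Pool.Agent.Lib.MP_c5d73d_lc.F.H62 (mem_reg le_iff mem_pr_iff pr_le_iff pr_mono mem_gen
  iSup_pr_eq_gen pr_ne_bot)

theorem dense_le {P : Type u} [Preorder P] (b c : H1.RO P)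
    (h : ∀ p ∈ (b : LowerSet P), ∃ r ≤ p, r ∈ (c : LowerSet P)) : b ≤ c := by
  rw [le_iff]
  intro p hp
  rw [mem_reg]
  intro q hq
  exact h q ((b : LowerSet P).lower hq hp)

section

variable {P P' : Type u} [Preorder P] [Preorder P'] (F : P → P')

/-- The map induced by `F`. -/
noncomputable def hm (b : H1.RO P) : H1.RO P' := ⨆ p : {p : P // pr p ≤ b}, pr (F p.1)

theorem hm_mono {b c : H1.RO P} (h : b ≤ c) : hm F b ≤ hm F c :=
  iSup_le fun p => le_iSup (fun p : {p : P // pr p ≤ c} => (pr (F p.1) : H1.RO P'))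
    ⟨p.1, p.2.trans h⟩

theorem pr_le_hm {b : H1.RO P} {p : P} (h : pr p ≤ b) : pr (F p) ≤ hm F b :=
  le_iSup (fun p : {p : P // pr p ≤ b} => (pr (F p.1) : H1.RO P')) ⟨p, h⟩

theorem mem_hm (b : H1.RO P) (r : P') (hr : r ∈ (hm F b : LowerSet P')) :
    ∃ r' ≤ r, ∃ p, pr p ≤ b ∧ r' ≤ F p := by
  have h1 : (hm F b : H1.RO P') = ⨆ n ∈ F '' {p | pr p ≤ b}, pr n := by
    rw [iSup_image]
    unfold hm
    rw [iSup_subtype]
    rfl
  rw [h1] at hr
  rw [iSup_pr_eq_gen, mem_gen] at hr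
  obtain ⟨r', hr', n, ⟨p, hp, rfl⟩, h⟩ := hr r le_rfl
  exact ⟨r', hr', p, hp, h⟩

/-- `F` induces a complete embedding if it preserves incompatibility and predense sets. -/
theorem hm_ce
    (hinc : ∀ p q r, r ≤ F p → r ≤ F q → ∃ s, s ≤ p ∧ s ≤ q)
    (hred : ∀ (p : P) (r : P'), r ≤ F p → ∀ D : Set P, (∀ p1 ≤ p, ∃ p2 ≤ p1, p2 ∈ D) →
      ∃ p2 ∈ D, ∃ r' ≤ r, r' ≤ F p2)
    (htop : ∀ r : P', ∃ p, r ≤ F p) : IsCE (hm F) := by
  have hsup : ∀ s : Set (H1.RO P), hm F (sSup s) = ⨆ a ∈ s, hm F a := by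
    intro s
    apply le_antisymm
    · apply iSup_le
      rintro ⟨p, hp⟩
      apply dense_le
      intro r hr
      rw [mem_pr_iff] at hr
      obtain ⟨r1, hr1, hr1'⟩ := hr r le_rfl
      have hD : ∀ p1 ≤ p, ∃ p2 ≤ p1, p2 ∈ {q : P | ∃ b ∈ s, pr q ≤ b} := by
        intro p1 hp1
        by_contra hcon
        push Not at hcon
        have h1 : ∀ b ∈ s, b ≤ (pr p1)ᶜ := by
          intro b hb
          rw [le_compl_iff_disjoint_right, disjoint_iff]
          by_contra hne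
          obtain ⟨q, hq⟩ := H1.exists_mem_of_ne_bot hne
          rw [← pr_le_iff] at hq
          have hq1 : pr q ≤ b := hq.trans inf_le_left
          have hq2 : q ∈ ((pr p1 : H1.RO P) : LowerSet P) := (pr_le_iff _ _).1 (hq.trans inf_le_right)
          rw [mem_pr_iff] at hq2
          obtain ⟨q', hq', hq''⟩ := hq2 q le_rfl
          exact hcon q' hq'' ⟨b, hb, (pr_mono hq').trans hq1⟩
        have h2 : pr p1 ≤ (pr p1)ᶜ := ((pr_mono hp1).trans hp).trans (sSup_le h1)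
        exact pr_ne_bot p1 (le_bot_iff.1 ((le_inf le_rfl h2).trans inf_compl_eq_bot.le))
      obtain ⟨p2, ⟨b, hb, hp2⟩, r', hr', hr''⟩ := hred p r1 hr1' _ hD
      refine ⟨r', hr'.trans hr1, ?_⟩
      rw [← pr_le_iff]
      exact (pr_mono hr'').trans ((pr_le_hm F hp2).trans (le_iSup₂_of_le b hb le_rfl))
    · exact iSup₂_le fun a ha => hm_mono F (le_sSup ha)
  have hinf : ∀ b c : H1.RO P, b ⊓ c = ⊥ → hm F b ⊓ hm F c = ⊥ := by
    intro b c hbc
    by_contra hne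
    obtain ⟨r, hr⟩ := H1.exists_mem_of_ne_bot hne
    rw [← pr_le_iff] at hr
    obtain ⟨r1, hr1, p1, hp1, h1⟩ := mem_hm F b r ((pr_le_iff _ _).1 (hr.trans inf_le_left))
    obtain ⟨r2, hr2, p2, hp2, h2⟩ := mem_hm F c r1
      ((pr_le_iff _ _).1 ((pr_mono hr1).trans (hr.trans inf_le_right)))
    obtain ⟨s, hs1, hs2⟩ := hinc p1 p2 r2 (hr2.trans h1) h2
    have : pr s ≤ b ⊓ c := le_inf ((pr_mono hs1).trans hp1) ((pr_mono hs2).trans hp2)
    rw [hbc] at this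
    exact pr_ne_bot s (le_bot_iff.1 this)
  have htop' : hm F ⊤ = ⊤ := by
    apply top_le_iff.1
    apply dense_le
    intro r _
    obtain ⟨p, hp⟩ := htop r
    exact ⟨r, le_rfl, (pr_le_iff _ _).1 ((pr_mono hp).trans (pr_le_hm F le_top))⟩
  have hcompl : ∀ b, hm F bᶜ = (hm F b)ᶜ := by
    intro b
    symm
    apply IsCompl.compl_eq
    constructor
    · rw [disjoint_iff]
      exact hinf _ _ inf_compl_eq_bot
    · rw [codisjoint_iff, ← htop', ← sup_compl_eq_top (x := b)]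
      have h1 := hsup {b, bᶜ}
      rw [sSup_pair, iSup_pair] at h1
      exact h1.symm
  refine ⟨?_, hcompl, hsup⟩
  have key : ∀ b c : H1.RO P, hm F b ≤ hm F c → b ≤ c := by
    intro b c h
    by_contra hcon
    have hne : b ⊓ cᶜ ≠ ⊥ := fun h' => hcon (disjoint_compl_right_iff.1 (disjoint_iff.2 h'))
    obtain ⟨p, hp⟩ := H1.exists_mem_of_ne_bot hne
    rw [← pr_le_iff] at hp
    have h1 : pr (F p) ≤ hm F c := (pr_le_hm F (hp.trans inf_le_left)).trans h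
    have h2 : pr (F p) ≤ (hm F c)ᶜ := by
      rw [← hcompl]
      exact pr_le_hm F (hp.trans inf_le_right)
    exact pr_ne_bot _ (le_bot_iff.1 ((le_inf h1 h2).trans inf_compl_eq_bot.le))
  intro b c h
  exact le_antisymm (key _ _ h.le) (key _ _ h.ge)

end

/-- FAC. -/
theorem fac (halg : AlgStatement.{u}) (hpec : PecStatement.{u}) (htw : Tw1Statement.{u}) :
    FacStatement.{u} := by
  intro A C _ _ f hf hpe X _ Q h1 h2 hpr
  obtain ⟨-, hbot, hfinf, -, hfle, -, -, -, -, hle, hprj, hprjf, -, -, -, -, -, hprj0, hdis⟩ :=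
    halg A C f hf
  obtain ⟨ce1, le1, -⟩ := htw A X Q
  obtain ⟨ce2, le2, -⟩ := htw C X (Q.map f h1 h2)
  have hne : ∀ p : Tw Q, f p.b ≠ ⊥ := by
    intro p h
    rw [← hbot] at h
    exact p.ne (hf.inj h)
  -- the map of conditions
  let F : Tw Q → Tw (Q.map f h1 h2) := fun p => ⟨f p.b, p.x, hne p⟩
  -- the reduction of a condition
  have hred0 : ∀ r : Tw (Q.map f h1 h2), prj f r.b ≠ ⊥ := fun r h => r.ne ((hprj0 _).1 h)
  let Rd : Tw (Q.map f h1 h2) → Tw Q := fun r => ⟨prj f r.b, r.x, hred0 r⟩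
  have hRd : ∀ r p, r ≤ F p → Rd r ≤ p := fun r p h =>
    ⟨(hprj _ _).2 h.1, (hprj _ _).2 h.2⟩
  have hRd' : ∀ r, r ≤ F (Rd r) := fun r =>
    ⟨hle _, by
      show r.b ≤ f (Q.le r.x r.x)
      rw [Q.refl, h1]
      exact le_top⟩
  have ce : IsCE (hm F) := by
    apply hm_ce F
    · intro p q r hp hq
      exact ⟨Rd r, hRd r p hp, hRd r q hq⟩
    · intro p r hr D hD
      set p1 : Tw Q := Rd r with hp1
      have hp1p : p1 ≤ p := hRd r p hr
      set E : Set A := {a | ∃ p2 : Tw Q, p2 ≤ p1 ∧ p2 ∈ D ∧ a = p2.b} with hE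
      have hu : p1.b ≤ sSup E := by
        by_contra hcon
        have hne' : p1.b ⊓ (sSup E)ᶜ ≠ ⊥ := fun h' =>
          hcon (disjoint_compl_right_iff.1 (disjoint_iff.2 h'))
        have hq : (⟨p1.b ⊓ (sSup E)ᶜ, p1.x, hne'⟩ : Tw Q) ≤ p1 :=
          ⟨inf_le_left, by rw [Q.refl]; exact le_top⟩
        obtain ⟨p2, hp2, hp2D⟩ := hD _ (hq.trans hp1p)
        have h3 : p2.b ≤ sSup E := le_sSup ⟨p2, hp2.trans hq, hp2D, rfl⟩
        have h4 : p2.b ≤ (sSup E)ᶜ := hp2.1.trans inf_le_right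
        exact p2.ne (le_bot_iff.1 ((le_inf h3 h4).trans inf_compl_eq_bot.le))
      have hu' : r.b ≤ ⨆ a ∈ E, f a := by
        rw [← hf.sSup]
        exact (hle _).trans ((hfle _ _).2 hu)
      have hex : ∃ a ∈ E, r.b ⊓ f a ≠ ⊥ := by
        by_contra hcon
        push Not at hcon
        apply r.ne
        rw [← inf_eq_left.2 hu', inf_iSup₂_eq]
        simp only [iSup_eq_bot]
        exact hcon
      obtain ⟨a, ⟨p2, hp2, hp2D, rfl⟩, ha⟩ := hex
      refine ⟨p2, hp2D, ⟨r.b ⊓ f p2.b, p2.x, ha⟩, ⟨inf_le_left, ?_⟩, ⟨inf_le_right, ?_⟩⟩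
      · exact inf_le_right.trans ((hfle _ _).2 hp2.2)
      · show r.b ⊓ f p2.b ≤ f (Q.le p2.x p2.x)
        rw [Q.refl, h1]
        exact le_top
    · intro r
      exact ⟨Rd r, hRd' r⟩
  have hcomm : (fun a => hm F (twE Q a)) = fun a => twE (Q.map f h1 h2) (f a) := by
    funext a
    apply le_antisymm
    · apply iSup_le
      rintro ⟨p, hp⟩
      rw [le1] at hp
      rw [le2]
      exact (hfle _ _).2 hp
    · apply iSup_le
      rintro ⟨r, hr⟩
      refine (pr_mono (hRd' r)).trans (pr_le_hm F ?_)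
      rw [le1]
      exact (hprj _ _).2 hr
  have hcomp : PE (fun a => twE (Q.map f h1 h2) (f a)) := (hpec _ _ _ f _ hf ce2).1 hpe hpr
  rw [← hcomm] at hcomp
  exact (hpec _ _ _ (twE Q) (hm F) ce1 ce).2.1 hcomp

end Pool.Agent.Lib.MP_e6fef2_lc.H46
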